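import Pool.Agent.Helper79.UN.NGoals

/-! # Packet ATT: if `Y` is an `F_σ` set then it has a code -/

noncomputable section

namespace UN.PkATT

open Pool.Agent.Helper97.Ku NU UL UN

variable {L : Type} [CompleteBooleanAlgebra L]

theorem iff_symm (a b : L) : iffV a b = iffV b a := by
  unfold iffV; rw [inf_comm]

theorem iff_trans (x a b c : L) (h1 : x ≤ iffV a b) (h2 : x ≤ iffV b c) : x ≤ iffV a c := by
  unfold iffV at *
  have h1a := h1.trans inf_le_left
  have h1b := h1.trans inf_le_right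
  have h2a := h2.trans inf_le_left
  have h2b := h2.trans inf_le_right
  rw [le_himp_iff] at h1a h1b h2a h2b
  refine le_inf ?_ ?_
  · rw [le_himp_iff]
    exact (le_inf inf_le_left h1a).trans h2a
  · rw [le_himp_iff]
    exact (le_inf inf_le_left h2b).trans h1b

theorem att_pf (mix : U_MIX) (loc : U_LOC) : U_ATT := by
  intro L _ K A Y
  obtain ⟨p, a, h1, h2, h3⟩ := mix L (ℕ × List Bool) (ℕ → List Bool → L) (cF K A Y)
    (fun q t => q t.1 t.2)
  refine ⟨fun n s => p (n, s), ?_⟩
  unfold psF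
  refine h2.trans (iSup_le fun q => ?_)
  unfold cF
  refine le_iInf fun x => ?_
  have h4 : a q ≤ iffV (fsV (fun n s => p (n, s)) (rl A x)) (fsV q (rl A x)) :=
    loc L _ _ _ _ (fun n σ => h3 q (n, σ))
  have h5 : a q ≤ (x.mem K ⇨ iffV (x.mem Y) (fsV q (rl A x))) :=
    (h1 q).trans (iInf_le _ x)
  rw [le_himp_iff] at h5 ⊢
  refine iff_trans _ _ (fsV q (rl A x)) _ h5 ?_
  rw [iff_symm]
  exact inf_le_left.trans h4

end UN.PkATT
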